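import Pool.Agent.Lib.MP_b5021c_nt.IfaceB

/-!
# Row CO0: the constant coefficient of a product (pointed supports)
-/

namespace Pool.Agent.B5.H94

open scoped LaurentPolynomial

/-- The constant coefficient of a product, over any semiring of coefficients. -/
theorem coeff0_mul {K L : Type} [Semiring K] [AddCommGroup L] (G H : AddMonoidAlgebra K L)
    (lam : L →+ ℤ) (hG : Pos lam G) (hH : Pos lam H) :
    (G * H).coeff 0 = G.coeff 0 * H.coeff 0 := by
  have hu : UniqueAdd G.coeff.support H.coeff.support (0 : L) (0 : L) := by
    intro a b ha hb hab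
    rw [add_zero] at hab
    have hl : lam a + lam b = 0 := by rw [← map_add, hab, map_zero]
    by_cases ha0 : a = 0
    · refine ⟨ha0, ?_⟩
      rw [ha0, zero_add] at hab
      exact hab
    · exfalso
      have h1 := hG a ha ha0
      have hb0 : b ≠ 0 := by
        intro hb0
        rw [hb0, add_zero] at hab
        exact ha0 hab
      have h2 := hH b hb hb0
      omega
  have h1 := AddMonoidAlgebra.coeff_mul_add_of_uniqueAdd hu
  rw [add_zero] at h1
  exact h1

/-- Pointedness of a product, over any semiring of coefficients. -/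
theorem pos_mul {K L : Type} [Semiring K] [AddCommGroup L] (G H : AddMonoidAlgebra K L)
    (lam : L →+ ℤ) (hG : Pos lam G) (hH : Pos lam H) : Pos lam (G * H) := by
  classical
  intro x hx hx0
  obtain ⟨a, ha, b, hb, hab⟩ := Finset.mem_add.mp (AddMonoidAlgebra.support_coeff_mul_subset _ _ hx)
  rw [← hab, map_add]
  by_cases ha0 : a = 0
  · have hb0 : b ≠ 0 := by
      intro hb0
      apply hx0
      rw [← hab, ha0, hb0, add_zero]
    rw [ha0, map_zero, zero_add]
    exact hH b hb hb0
  · have h1 := hG a ha ha0
    by_cases hb0 : b = 0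
    · rw [hb0, map_zero, add_zero]
      exact h1
    · have h2 := hH b hb hb0
      omega

theorem co0 : Coeff0S := fun _ _ _ _ _ _ _ _ _ G H lam hG hH =>
  ⟨coeff0_mul G H lam hG hH, pos_mul G H lam hG hH⟩

end Pool.Agent.B5.H94
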