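import Pool.Agent.Lib.MP_b5021c_nt.IfaceE2
import Pool.Agent.Lib.MP_b5021c_nt.B.H94.Co0

/-!
# Row E2_TPR: the rank bound of a terminal pair
-/

namespace Pool.Agent.B5.H94

open scoped LaurentPolynomial
open AddMonoidAlgebra
open Pool.Agent.B5.H71 (em)

set_option linter.unusedSectionVars false

section Gp

open Classical in
/-- The part of `G` of degree `m`, for a grading with values in any group. -/
noncomputable def gp {K L Q : Type} [Semiring K] [AddCommGroup L] [AddCommGroup Q]
    (mu : L →+ Q) (m : Q) (G : AddMonoidAlgebra K L) : AddMonoidAlgebra K L :=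
  AddMonoidAlgebra.ofCoeff (G.coeff.filter fun a => mu a = m)

variable {K L Q : Type} [CommRing K] [AddCommGroup L] [AddCommGroup Q]
  (mu : L →+ Q) (m : Q)

open Classical in
theorem gp_coeff (G : AddMonoidAlgebra K L) (a : L) :
    (gp mu m G).coeff a = if mu a = m then G.coeff a else 0 :=
  Finsupp.filter_apply _ _ _

theorem gp_coeff_pos (G : AddMonoidAlgebra K L) (a : L) (h : mu a = m) :
    (gp mu m G).coeff a = G.coeff a := by
  rw [gp_coeff, if_pos h]

theorem gp_coeff_neg (G : AddMonoidAlgebra K L) (a : L) (h : mu a ≠ m) :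
    (gp mu m G).coeff a = 0 := by
  rw [gp_coeff, if_neg h]

theorem ext_coeff {G H : AddMonoidAlgebra K L} (h : ∀ a, G.coeff a = H.coeff a) : G = H :=
  AddMonoidAlgebra.ext (Finsupp.ext h)

theorem gp_add (G H : AddMonoidAlgebra K L) : gp mu m (G + H) = gp mu m G + gp mu m H := by
  apply ext_coeff
  intro a
  by_cases h : mu a = m
  · rw [gp_coeff_pos _ _ _ _ h, AddMonoidAlgebra.coeff_add, AddMonoidAlgebra.coeff_add,
      Finsupp.add_apply, Finsupp.add_apply, gp_coeff_pos _ _ _ _ h, gp_coeff_pos _ _ _ _ h]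
  · rw [gp_coeff_neg _ _ _ _ h, AddMonoidAlgebra.coeff_add,
      Finsupp.add_apply, gp_coeff_neg _ _ _ _ h, gp_coeff_neg _ _ _ _ h, add_zero]

theorem gp_zero : gp mu m (0 : AddMonoidAlgebra K L) = 0 := by
  apply ext_coeff
  intro a
  by_cases h : mu a = m
  · rw [gp_coeff_pos _ _ _ _ h]
  · rw [gp_coeff_neg _ _ _ _ h]
    rfl

/-- The grading as an additive map. -/
noncomputable def gpH : AddMonoidAlgebra K L →+ AddMonoidAlgebra K L where
  toFun := gp mu m
  map_zero' := gp_zero mu m
  map_add' := gp_add mu m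

theorem gpH_apply (G : AddMonoidAlgebra K L) : gpH mu m G = gp mu m G := rfl

/-- `H` is homogeneous of degree zero. -/
def D0 (H : AddMonoidAlgebra K L) : Prop :=
  ∀ G : AddMonoidAlgebra K L, gp mu m (H * G) = H * gp mu m G

theorem d0_one : D0 mu m (1 : AddMonoidAlgebra K L) := by
  intro G
  rw [one_mul, one_mul]

theorem d0_single (h : L) (x : K) (hh : mu h = 0) : D0 mu m (single h x) := by
  intro G
  apply ext_coeff
  intro a
  have h1 := AddMonoidAlgebra.coeff_single_mul_apply (gp mu m G) x h a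
  have h2 := AddMonoidAlgebra.coeff_single_mul_apply G x h a
  have h3 : mu (-h + a) = mu a := by rw [map_add, map_neg, hh, neg_zero, zero_add]
  by_cases hm : mu a = m
  · rw [gp_coeff_pos _ _ _ _ hm, h1, h2, gp_coeff_pos _ _ _ _ (h3.trans hm)]
  · rw [gp_coeff_neg _ _ _ _ hm, h1, gp_coeff_neg _ _ _ _ (fun h4 => hm (h3.symm.trans h4)),
      mul_zero]

theorem d0_mul {G H : AddMonoidAlgebra K L} (hG : D0 mu m G) (hH : D0 mu m H) :
    D0 mu m (G * H) := by
  intro F
  rw [mul_assoc, hG, hH, mul_assoc]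

theorem d0_sub {G H : AddMonoidAlgebra K L} (hG : D0 mu m G) (hH : D0 mu m H) :
    D0 mu m (G - H) := by
  intro F
  rw [sub_mul, ← gpH_apply, map_sub, gpH_apply, gpH_apply, hG, hH, sub_mul]

theorem d0_prod {ι : Type} (s : Finset ι) (G : ι → AddMonoidAlgebra K L)
    (hG : ∀ i ∈ s, D0 mu m (G i)) : D0 mu m (∏ i ∈ s, G i) := by
  classical
  induction s using Finset.induction_on with
  | empty => rw [Finset.prod_empty]; exact d0_one mu m
  | insert a s ha ih =>
    rw [Finset.prod_insert ha]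
    exact d0_mul mu m (hG a (Finset.mem_insert_self a s))
      (ih fun i hi => hG i (Finset.mem_insert_of_mem hi))

theorem gp_of_zero (hm : m ≠ 0) (G : AddMonoidAlgebra K L) (hG : ∀ a ∈ supp G, mu a = 0) :
    gp mu m G = 0 := by
  apply ext_coeff
  intro a
  by_cases h : mu a = m
  · rw [gp_coeff_pos _ _ _ _ h]
    by_contra h2
    exact hm (h.symm.trans (hG a (fun h3 => h2 h3)))
  · rw [gp_coeff_neg _ _ _ _ h]
    rfl

end Gp

section

variable {O : Type} [CommRing O] [IsDomain O] [IsPrincipalIdealRing O] [Coef O]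
  {L : Type} [AddCommGroup L] [Module.Free ℤ L] [Module.Finite ℤ L]

theorem gp_sharp {Q : Type} [AddCommGroup Q] (mu : L →+ Q) (m : Q) (G : AO O L) :
    gp mu m (sharp G) = sharp (gp mu (-m) G) := by
  apply ext_coeff
  intro a
  rw [sharp_coeff']
  by_cases h : mu a = m
  · rw [gp_coeff_pos _ _ _ _ h, sharp_coeff', gp_coeff_pos]
    rw [map_neg, h]
  · rw [gp_coeff_neg _ _ _ _ h, gp_coeff_neg, map_zero]
    intro h2
    rw [map_neg, neg_inj] at h2
    exact h h2

theorem rsh_ne {c : RO O} (hc : c ≠ 0) : rsh c ≠ 0 := by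
  intro h
  apply hc
  have h1 : AddMonoidAlgebra.mapRingHom ℤ (Coef.conj : O ≃+* O).toRingHom c = 0 := by
    apply (LaurentPolynomial.invert (R := O)).injective
    rw [map_zero]
    exact h
  apply ext_coeff
  intro n
  have h2 := congrArg (fun p : RO O => p.coeff n) h1
  have h3 : (Coef.conj : O ≃+* O) (c.coeff n) = 0 := by
    simpa using h2
  rwa [map_eq_zero_iff _ (Coef.conj : O ≃+* O).injective] at h3

theorem sfa_pos (lam : L →+ ℤ) (b : L) (e : (RO O)ˣ) (hb : 0 < lam b) :
    Pos lam (sfa b e : AO O L) ∧ (sfa b e : AO O L).coeff 0 = 1 := by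
  classical
  have hb0 : b ≠ 0 := by
    rintro rfl
    rw [map_zero] at hb
    exact lt_irrefl _ hb
  constructor
  · intro a ha ha0
    by_cases hab : a = b
    · rw [hab]; exact hb
    · exfalso
      rw [Finsupp.mem_support_iff] at ha
      apply ha
      have h1 : ((1 : AO O L)).coeff a = 0 := by
        rw [AddMonoidAlgebra.one_def, AddMonoidAlgebra.coeff_single, Finsupp.single_apply, if_neg (fun h => ha0 h.symm)]
      have h2 : (single b ((e⁻¹ : (RO O)ˣ) : RO O)).coeff a = 0 := by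
        rw [AddMonoidAlgebra.coeff_single, Finsupp.single_apply, if_neg (fun h => hab h.symm)]
      unfold sfa
      rw [AddMonoidAlgebra.coeff_sub, Finsupp.sub_apply, h1, h2, sub_zero]
  · have h1 : ((1 : AO O L)).coeff 0 = 1 := by
      rw [AddMonoidAlgebra.one_def, AddMonoidAlgebra.coeff_single, Finsupp.single_eq_same]
    have h2 : (single b ((e⁻¹ : (RO O)ˣ) : RO O)).coeff 0 = 0 := by
      rw [AddMonoidAlgebra.coeff_single, Finsupp.single_apply, if_neg hb0]
    unfold sfa
    rw [AddMonoidAlgebra.coeff_sub, Finsupp.sub_apply, h1, h2, sub_zero]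

theorem prod_sfa_pos (lam : L →+ ℤ) {n : ℕ} (b : Fin n → L) (e : Fin n → (RO O)ˣ)
    (hb : ∀ i, 0 < lam (b i)) (s : Finset (Fin n)) :
    Pos lam (∏ i ∈ s, sfa (b i) (e i) : AO O L) ∧
      (∏ i ∈ s, sfa (b i) (e i) : AO O L).coeff 0 = 1 := by
  classical
  induction s using Finset.induction_on with
  | empty =>
    rw [Finset.prod_empty]
    constructor
    · intro a ha ha0
      exfalso
      rw [Finsupp.mem_support_iff] at ha
      apply ha
      rw [AddMonoidAlgebra.one_def, AddMonoidAlgebra.coeff_single, Finsupp.single_apply, if_neg (fun h => ha0 h.symm)]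
    · rw [AddMonoidAlgebra.one_def, AddMonoidAlgebra.coeff_single, Finsupp.single_eq_same]
  | insert i s hi ih =>
    rw [Finset.prod_insert hi]
    have h1 := sfa_pos (O := O) lam (b i) (e i) (hb i)
    refine ⟨pos_mul _ _ lam h1.1 ih.1, ?_⟩
    rw [coeff0_mul _ _ lam h1.1 ih.1, h1.2, ih.2, mul_one]

theorem rk_iUnion (hRk : RkS) {n : ℕ} (U : Fin n → Set L) (s : Finset (Fin n)) :
    rk (⋃ i ∈ s, U i) ≤ ∑ i ∈ s, rk (U i) := by
  classical
  induction s using Finset.induction_on with
  | empty =>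
    have h0 : (⋃ i ∈ (∅ : Finset (Fin n)), U i) = ∅ := by simp
    rw [h0, Finset.sum_empty]
    unfold rk
    rw [Submodule.span_empty, finrank_bot]
  | insert i s hi ih =>
    rw [Finset.sum_insert hi, Finset.set_biUnion_insert]
    exact ((hRk L L).2.2.2.2.2.1 _ _).trans (Nat.add_le_add_left ih _)

end

theorem tpr (hX : TpxS) (hMin : MinS) (hRk : RkS) : TprS := by
  classical
  intro O _ _ _ _ L _ _ _ r lam B c n b f e q hT hq hrec
  obtain ⟨R, hB, hR⟩ := hX O L r lam B c n b f e q hT hq hrec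
  -- the set of exponents
  set U : Fin n → Set L := fun i => {b i} ∪ (incl (Ker (f i))) '' (supp (q i)) with hU
  set T : Set L := ⋃ i ∈ (Finset.univ : Finset (Fin n)), U i with hTdef
  have hbT : ∀ i, b i ∈ T := by
    intro i
    rw [hTdef]
    simp only [Set.mem_iUnion]
    exact ⟨i, Finset.mem_univ i, Or.inl rfl⟩
  have hqT : ∀ i, ∀ a ∈ supp (q i), ((a : Ker (f i)) : L) ∈ T := by
    intro i a ha
    rw [hTdef]
    simp only [Set.mem_iUnion]
    exact ⟨i, Finset.mem_univ i, Or.inr ⟨a, ha, rfl⟩⟩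
  -- the grading
  set N : Submodule ℤ L := Submodule.span ℤ T with hN
  set mu : L →+ (L ⧸ N) := N.mkQ.toAddMonoidHom with hmu
  have hmu0 : ∀ a, mu a = 0 ↔ a ∈ N := by
    intro a
    rw [hmu]
    exact Submodule.Quotient.mk_eq_zero N
  have hmb : ∀ i, mu (b i) = 0 := fun i => (hmu0 _).2 (Submodule.subset_span (hbT i))
  have hsfa : ∀ (m : L ⧸ N) (i : Fin n), D0 mu m (sfa (b i) (e i) : AO O L) := by
    intro m i
    exact d0_sub mu m (d0_one mu m) (d0_single mu m _ _ (hmb i))
  have hpr : ∀ (m : L ⧸ N) (s : Finset (Fin n)),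
      D0 mu m (∏ i ∈ s, sfa (b i) (e i) : AO O L) := by
    intro m s
    exact d0_prod mu m s _ (fun i _ => hsfa m i)
  have hemq : ∀ (m : L ⧸ N), m ≠ 0 → ∀ i, gp mu m (em (Ker (f i)) (q i)) = 0 := by
    intro m hm i
    apply gp_of_zero mu m hm
    intro a ha
    by_cases hk : a ∈ Ker (f i)
    · have h1 : (em (Ker (f i)) (q i)).coeff a = (q i).coeff ⟨a, hk⟩ :=
        Pool.Agent.B5.H71.em_coeff (Ker (f i)) (q i) ⟨a, hk⟩
      have h2 : (⟨a, hk⟩ : Ker (f i)) ∈ supp (q i) := by
        intro h3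
        exact ha (h1.trans h3)
      exact (hmu0 _).2 (Submodule.subset_span (hqT i _ h2))
    · exact absurd (Pool.Agent.B5.H71.em_coeff_not (Ker (f i)) (q i) a hk) ha
  have hcst : ∀ (m : L ⧸ N) (x : RO O), D0 mu m (cst x : AO O L) := by
    intro m x
    exact d0_single mu m _ _ (map_zero mu)
  have hcst0 : ∀ (m : L ⧸ N), m ≠ 0 → ∀ (x : RO O), gp mu m (cst x : AO O L) = 0 := by
    intro m hm x
    apply gp_of_zero mu m hm
    intro a ha
    by_cases h : a = 0
    · rw [h, map_zero]
    · exfalso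
      apply ha
      unfold cst
      rw [AddMonoidAlgebra.coeff_single, Finsupp.single_apply, if_neg (fun h2 => h h2.symm)]
  -- homogeneous parts of the two identities
  have hBm : ∀ (m : L ⧸ N), m ≠ 0 →
      gp mu m B = (∏ j, sfa (b j) (e j) : AO O L) * gp mu m R := by
    intro m hm
    have h1 : gp mu m (∑ i, em (Ker (f i)) (q i) *
        ∏ j ∈ Finset.univ.erase i, sfa (b j) (e j) : AO O L) = 0 := by
      rw [← gpH_apply, map_sum]
      apply Finset.sum_eq_zero
      intro i _
      rw [gpH_apply, mul_comm, hpr m, hemq m hm, mul_zero]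
    calc gp mu m B = gp mu m (∑ i, em (Ker (f i)) (q i) *
        ∏ j ∈ Finset.univ.erase i, sfa (b j) (e j) +
          (∏ j, sfa (b j) (e j)) * R) := congrArg (gp mu m) hB
      _ = _ := by rw [gp_add, h1, zero_add, hpr m]
  have hRm : ∀ (m : L ⧸ N), m ≠ 0 →
      cst (rsh c) * gp mu m R + cst c * sharp (gp mu (-m) R) = 0 := by
    intro m hm
    have h1 : gp mu m ((∑ i, em (Ker (f i)) (q i)) * cst (rsh c) : AO O L) = 0 := by
      rw [mul_comm, hcst m, ← gpH_apply, map_sum]
      have h2 : ∑ i, gpH mu m (em (Ker (f i)) (q i)) = 0 :=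
        Finset.sum_eq_zero fun i _ => hemq m hm i
      rw [h2, mul_zero]
    have h2 : gp mu m ((r : AO O L) * cst (c * rsh c)) = 0 := by
      rw [← nsmul_eq_mul, ← gpH_apply, map_nsmul, gpH_apply, hcst0 m hm, nsmul_zero]
    have h3 := congrArg (gp mu m) hR
    rw [h2, gp_add, gp_add, h1, zero_add, mul_comm R, hcst m, mul_comm (sharp R), hcst m,
      gp_sharp] at h3
    exact h3
  have hP := prod_sfa_pos (O := O) lam b e hT.pb Finset.univ
  -- lam ≥ 1 on the support of the parts
  have hlam : ∀ (m : L ⧸ N), m ≠ 0 → ∀ a ∈ supp (gp mu m R), 1 ≤ lam a := by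
    intro m hm a ha
    have hne : gp mu m R ≠ 0 := by
      intro h
      apply ha
      rw [h]
      rfl
    refine hMin O L (gp mu m R) (∏ j, sfa (b j) (e j)) hne (by rw [hP.2]; exact one_ne_zero)
      lam 1 ?_ a ha
    intro x hx
    rw [mul_comm, ← hBm m hm] at hx
    have hx1 : mu x = m := by
      by_contra h
      exact hx (gp_coeff_neg mu m B x h)
    have hx2 : B.coeff x ≠ 0 := by
      intro h
      exact hx ((gp_coeff_pos mu m B x hx1).trans h)
    have hx0 : x ≠ 0 := by
      rintro rfl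
      rw [map_zero] at hx1
      exact hm hx1.symm
    exact hT.pB x (Finsupp.mem_support_iff.2 hx2) hx0
  have hRm0 : ∀ (m : L ⧸ N), m ≠ 0 → gp mu m R = 0 := by
    intro m hm
    apply ext_coeff
    intro a
    by_contra ha
    have ha' : a ∈ supp (gp mu m R) := ha
    have h1 := hlam m hm a ha'
    have h2 := congrArg (fun G : AO O L => G.coeff a) (hRm m hm)
    simp only [AddMonoidAlgebra.coeff_add, Finsupp.add_apply,
      Pool.Agent.B5.H71.cst_mul_coeff, sharp_coeff'] at h2
    have h3 : (gp mu (-m) R).coeff (-a) = 0 := by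
      by_contra h4
      have h5 := hlam (-m) (neg_ne_zero.2 hm) (-a) h4
      rw [map_neg] at h5
      omega
    rw [h3, map_zero, mul_zero, add_zero] at h2
    have h4 : rsh c * (gp mu m R).coeff a = 0 := h2
    rcases mul_eq_zero.1 h4 with h5 | h5
    · exact rsh_ne hT.c0 h5
    · exact ha' h5
  have hsB : ∀ a ∈ supp B, a ∈ N := by
    intro a ha
    by_contra h
    have hm : mu a ≠ 0 := fun h2 => h ((hmu0 a).1 h2)
    have h1 := hBm (mu a) hm
    rw [hRm0 (mu a) hm, mul_zero] at h1
    apply ha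
    rw [← gp_coeff_pos mu (mu a) B a rfl, h1]
    rfl
  have h1 : rk (supp B ∪ Set.range b) ≤ rk T := by
    apply (hRk L L).2.2.2.2.2.2.2.2.1
    rintro a (ha | ⟨i, rfl⟩)
    · exact ⟨1, one_ne_zero, by rw [one_smul]; exact hsB a ha⟩
    · exact ⟨1, one_ne_zero, by rw [one_smul]; exact Submodule.subset_span (hbT i)⟩
  refine h1.trans ((rk_iUnion hRk U Finset.univ).trans (Finset.sum_le_sum fun i _ => ?_))
  have hb0 : b i ≠ 0 := by
    intro h
    have := hT.pb i
    rw [h, map_zero] at this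
    exact lt_irrefl _ this
  calc rk (U i) ≤ rk {b i} + rk ((incl (Ker (f i))) '' (supp (q i))) :=
        (hRk L L).2.2.2.2.2.1 _ _
    _ ≤ 1 + rk (supp (q i)) := by
        rw [(hRk L L).2.2.2.2.2.2.1 (b i) hb0]
        exact Nat.add_le_add_left ((hRk (Ker (f i)) L).2.2.2.2.1 _ _) _

end Pool.Agent.B5.H94
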